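import Pool.Agent.D0H76.Q4.Selo
import Pool.Agent.D0H43.MQ.StmB

/-!
Project MQ (helper43), module SELOT: the Selmer group of `y² = x³ + i ^ σ (1 + i) Δ t² x` over `ℚ(i)`
for `Δ` of determinant one and primary `t ∣ Δ`. After `Pool/Agent/D0H76/Q4/Selo.lean` (helper76).
-/

set_option autoImplicit false
set_option linter.unusedSectionVars false

open NumberField IsDedekindDomain

namespace Pool.Agent.D0H70.MQ

open Pool.Agent.Y682 (S1 S2 vv vv_coe IsT Zc Zc_card Zc_lower LL1 LL2 Sq quot_eq)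
open Pool.Agent.Y699
open Pool.Agent.Y715.Z hiding im1_sq
open Pool.Agent.D0H43.Q4 (MB dO cO hO sl xl l1 cst S_SELO)
open Pool.Agent.H304R2.EC.A1 (prim prim_mul prim_ne_zero)
open Pool.Agent.D0H49.Q4 (exists_exp approx dvd_of_val loc_bad')
open H385 (ZI RQ im1 nrm)
open Pool.Agent.W164.RC (unit_norm unit_cases)
open Pool.Agent.D0H76.Q4.Two
open Pool.Agent.D0H76.Q4

/-- the square of a primary number is one modulo four -/
lemma im_t {Q t : ZI} (ht : prim t) : (Q * t ^ 2).im % 4 = Q.im % 4 := by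
  obtain ⟨h1, h2⟩ := ht
  obtain ⟨a, b⟩ := t
  obtain ⟨x, y⟩ := Q
  simp only at h1 h2
  obtain ⟨b', rfl⟩ : ∃ b', b = 2 * b' := ⟨b / 2, by omega⟩
  obtain ⟨a', rfl⟩ : ∃ a', a = 2 * a' + 1 := ⟨a / 2, by omega⟩
  have e : ((⟨x, y⟩ : ZI) * (⟨2 * a' + 1, 2 * b'⟩ : ZI) ^ 2).im =
      y + 4 * (x * (2 * a' + 1) * b' + y * (a' ^ 2 + a' - b' ^ 2)) := by
    rw [pow_two, Zsqrtd.im_mul, Zsqrtd.re_mul, Zsqrtd.im_mul]
    simp only
    ring
  rw [e]
  simp only
  omega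

/-- the local image at a place where `D` has odd valuation -/
lemma cls_odd {L : Type} [Field L] (w : Valuation L (WithZero (Multiplicative ℤ)))
    (hens : ∀ t : L, w t < 1 → ∃ y : L, y ^ 2 = 1 + t) {D m : L} (hD0 : D ≠ 0)
    (hodd : ∀ g : WithZero (Multiplicative ℤ), g ^ 2 ≠ w D) (h : S1 0 D m) :
    ∃ c : L, c ≠ 0 ∧ (m = c ^ 2 ∨ m = D * c ^ 2) := by
  rcases h with h | h | ⟨hm, y, hy⟩
  · exact ⟨1, one_ne_zero, Or.inl (by rw [h, one_pow])⟩
  · exact ⟨1, one_ne_zero, Or.inr (by rw [h, one_pow, mul_one])⟩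
  · have hwm : w m ≠ 0 := (Valuation.ne_zero_iff _).2 hm
    have hwD : w D ≠ 0 := (Valuation.ne_zero_iff _).2 hD0
    rw [zero_mul, add_zero] at hy
    have hwm2 : w (m ^ 2) ≠ 0 := (Valuation.ne_zero_iff _).2 (pow_ne_zero 2 hm)
    rcases lt_trichotomy (w D) (w (m ^ 2)) with h1 | h1 | h1
    · have ht : w (D / m ^ 2) < 1 := by
        rw [map_div₀, div_lt_iff₀ (zero_lt_iff.2 hwm2), one_mul]
        exact h1
      obtain ⟨r, hr⟩ := hens _ ht
      have hr0 : r ≠ 0 := by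
        rintro rfl
        have h2 : D / m ^ 2 = -1 := by linear_combination -hr
        rw [h2, Valuation.map_neg, map_one] at ht
        exact lt_irrefl _ ht
      have h2 : (m * r) ^ 2 = m ^ 2 + D := by
        rw [mul_pow, hr]
        field_simp
      rw [← h2] at hy
      have hmr : m * r ≠ 0 := mul_ne_zero hm hr0
      have hy0 : y ≠ 0 := by
        rintro rfl
        rw [zero_pow two_ne_zero] at hy
        exact mul_ne_zero hm (pow_ne_zero 2 hmr) hy.symm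
      refine ⟨y / (m * r), div_ne_zero hy0 hmr, Or.inl ?_⟩
      rw [div_pow, hy]
      field_simp
    · exact absurd (by rw [h1, map_pow]) (hodd (w m))
    · have ht : w (m ^ 2 / D) < 1 := by
        rw [map_div₀, div_lt_iff₀ (zero_lt_iff.2 hwD), one_mul]
        exact h1
      obtain ⟨r, hr⟩ := hens _ ht
      have hr0 : r ≠ 0 := by
        rintro rfl
        have h2 : m ^ 2 / D = -1 := by linear_combination -hr
        rw [h2, Valuation.map_neg, map_one] at ht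
        exact lt_irrefl _ ht
      have h2 : D * r ^ 2 = m ^ 2 + D := by
        rw [hr]
        field_simp
        ring
      rw [← h2] at hy
      have hDr : D * r ≠ 0 := mul_ne_zero hD0 hr0
      have hy0 : y ≠ 0 := by
        rintro rfl
        rw [zero_pow two_ne_zero] at hy
        exact mul_ne_zero hm (mul_ne_zero hD0 (pow_ne_zero 2 hr0)) hy.symm
      refine ⟨y / (D * r), div_ne_zero hy0 hDr, Or.inr ?_⟩
      rw [div_pow, hy]
      field_simp

section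

variable {K : Type} [Field K] [NumberField K] (e : ZI ≃+* 𝓞 K) {z : ZI} (hz : Prime z)

/-- the local conditions for `D t²` and `D` at a place where `D` has valuation one -/
lemma S1_red {D t : ZI} (h2 : ¬ z ∣ 2) (hD0 : D ≠ 0) (ht0 : t ≠ 0)
    (hDv : (plc e hz).valuation K (em0 e D) = WithZero.exp (-1 : ℤ)) {b : K}
    (h : ∃ y m : (plc e hz).adicCompletion K, y ≠ 0 ∧ ph e hz b * y ^ 2 = m ∧
      S1 0 (ph e hz (em0 e (D * t ^ 2))) m) :
    ∃ y m : (plc e hz).adicCompletion K, y ≠ 0 ∧ ph e hz b * y ^ 2 = m ∧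
      S1 0 (ph e hz (em0 e D)) m := by
  obtain ⟨y, m, hy, hym, hm⟩ := h
  have h2' : (plc e hz).valuation K 2 = 1 := by
    have := val_one e hz h2
    rwa [map_ofNat] at this
  have hpt : ph e hz (em0 e t) ≠ 0 := (map_ne_zero _).2 (em0_ne e ht0)
  have hphD : ph e hz (em0 e (D * t ^ 2)) ≠ 0 :=
    (map_ne_zero _).2 (em0_ne e (mul_ne_zero hD0 (pow_ne_zero 2 ht0)))
  have hvt : vv (plc e hz) (ph e hz (em0 e t)) ≠ 0 := (Valuation.ne_zero_iff _).2 hpt
  obtain ⟨c, hc, hmc⟩ := cls_odd (vv (plc e hz)) (fun t ht => hens_odd (plc e hz) h2' t ht)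
    hphD (fun g hg => by
      rw [map_mul, map_mul, map_mul, map_pow, map_pow, map_pow, vv_coe _ (em0 e D), hDv] at hg
      apply exp_sq (g := g / vv (plc e hz) (ph e hz (em0 e t)))
      rw [div_pow, hg]
      field_simp) hm
  rcases hmc with h1 | h1
  · refine ⟨y / c, 1, div_ne_zero hy hc, ?_, Or.inl rfl⟩
    rw [div_pow, ← mul_div_assoc, hym, h1, div_self (pow_ne_zero 2 hc)]
  · have hct : ph e hz (em0 e t) * c ≠ 0 := mul_ne_zero hpt hc
    refine ⟨y / (ph e hz (em0 e t) * c), ph e hz (em0 e D), div_ne_zero hy hct, ?_,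
      Or.inr (Or.inl rfl)⟩
    rw [div_pow, ← mul_div_assoc, hym, h1, map_mul, map_mul, map_pow, map_pow,
      div_eq_iff (pow_ne_zero 2 hct)]
    ring

end

section

variable {K : Type} [Field K] [NumberField K] (e : ZI ≃+* 𝓞 K)

lemma DT_ne {σ : ℕ} {Δ t : ZI} (hg : PS Δ) (htp : prim t) :
    (im1 ^ σ * l1 * (Δ * t ^ 2) : ZI) ≠ 0 :=
  mul_ne_zero (mul_ne_zero (pow_ne_zero _ (by decide)) (by decide))
    (mul_ne_zero hg.ne (pow_ne_zero 2 (prim_ne_zero htp)))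

/-- the valuation of `D t²` at `1 + i` -/
lemma val_DT {σ : ℕ} {Δ t : ZI} (hg : PS Δ) (htp : prim t) :
    (plc e pi1_prime).valuation K (em0 e (im1 ^ σ * l1 * (Δ * t ^ 2))) = WithZero.exp (-1 : ℤ) := by
  have hiu : IsUnit ((im1 : ZI) ^ σ) := Zsqrtd.norm_eq_one_iff.1 (by rw [norm_im]; rfl)
  have h1 : (im1 ^ σ * l1 * (Δ * t ^ 2) : ZI) = pi1 * (im1 ^ σ * (Δ * t ^ 2)) := by
    have : (l1 : ZI) = pi1 := rfl
    rw [this]; ring
  have h2 : ¬ pi1 ∣ im1 ^ σ * (Δ * t ^ 2) := by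
    intro h'
    rcases pi1_prime.dvd_or_dvd h' with h4 | h4
    · exact pi1_prime.not_isUnit (isUnit_of_dvd_unit h4 hiu)
    · rw [pow_two] at h4
      exact pi1_prim (prim_mul hg.prm (prim_mul htp htp)) h4
  rw [h1, map_mul, map_mul, val_z, val_one e _ h2, mul_one]

/-- the Selmer group, odd representatives -/
theorem sel_oddT {σ : ℕ} {Δ t : ZI} (hg : PS Δ) (hdt : dO σ Δ = 1) (htp : prim t) (htd : t ∣ Δ)
    {b w : K} {d : ZI}
    (hd : Squarefree d) (hw : w ≠ 0) (hbd : b = em0 e d * w ^ 2) (hdo : ¬ pi1 ∣ d)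
    (h : ∀ v : HeightOneSpectrum (𝓞 K), ∃ y m : v.adicCompletion K, y ≠ 0 ∧
      algebraMap K (v.adicCompletion K) b * y ^ 2 = m ∧
        S1 0 (algebraMap K (v.adicCompletion K) (em0 e (im1 ^ σ * l1 * (Δ * t ^ 2)))) m) :
    ∃ c : K, b = c ^ 2 := by
  classical
  have ht0 : t ≠ 0 := prim_ne_zero htp
  have hΔ0 := hg.ne
  have hp := fam_PF hΔ0
  have hl0 : (l1 : ZI) ≠ 0 := by decide
  have hl1 : (l1 : ZI) = pi1 := rfl
  have him0 : ∀ n : ℕ, (im1 : ZI) ^ n ≠ 0 := fun n => pow_ne_zero n (by decide)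
  have hiu : ∀ n : ℕ, IsUnit ((im1 : ZI) ^ n) := fun n =>
    Zsqrtd.norm_eq_one_iff.1 (by rw [norm_im]; rfl)
  set D : ZI := im1 ^ σ * l1 * Δ with hD
  have hD0 : D ≠ 0 := mul_ne_zero (mul_ne_zero (him0 _) hl0) hg.ne
  have hDt : im1 ^ σ * l1 * (Δ * t ^ 2) = D * t ^ 2 := by rw [hD]; ring
  rw [hDt] at h
  have hpp1 : ∀ π : ZI, PP π → ¬ π ∣ l1 := by
    intro π hπ h
    apply not_dvd_two hπ
    have h2 : (2 : ZI) = l1 * (l1 * -im1) := by decide
    rw [h2]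
    exact h.mul_right _
  -- the primes of `d`
  have hprime : ∀ ρ : ZI, Prime ρ → ρ ∣ d → ρ ∣ Δ := by
    intro ρ hρ hρd
    by_contra hρD
    have h1 : ¬ ρ ∣ D := by
      intro h2
      rcases hρ.dvd_or_dvd h2 with h3 | h3
      · rcases hρ.dvd_or_dvd h3 with h4 | h4
        · exact hρ.not_isUnit (isUnit_of_dvd_unit h4 (hiu _))
        · -- `ρ` is associated to `1 + i`
          apply hdo
          rw [hl1] at h4
          obtain ⟨c, hc⟩ := h4
          rcases pi1_prime.irreducible.isUnit_or_isUnit hc with h5 | h5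
          · exact absurd h5 hρ.not_isUnit
          · obtain ⟨c', hc'⟩ := h5.exists_right_inv
            have h6 : pi1 ∣ ρ := ⟨c', by rw [hc, mul_assoc, hc', mul_one]⟩
            exact h6.trans hρd
      · exact hρD h3
    have h1t : ¬ ρ ∣ D * t ^ 2 := by
      intro h2
      rcases hρ.dvd_or_dvd h2 with h3 | h3
      · exact h1 h3
      · exact hρD ((hρ.dvd_of_dvd_pow h3).trans htd)
    exact not_dvd_of_loc e hρ h1t hd hw hbd (h (plc e hρ)) hρd
  set S := Finset.univ.filter (fun i => fam Δ i ∣ d) with hS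
  have hDV : DD (fam Δ) Finset.univ = Δ := hg.DD
  have hSd : DD (fam Δ) S ∣ d := by
    unfold DD
    refine Finset.prod_dvd_of_coprime ?_ ?_
    · intro i _ j _ hij
      exact (hp.pp i).cop (hp.pp j) fun h => hij (hp.inj h)
    · intro i hi
      exact (Finset.mem_filter.1 hi).2
  obtain ⟨u, hu⟩ := hSd
  have huu : IsUnit u := by
    by_contra hnu
    have hu0 : u ≠ 0 := by
      rintro rfl
      exact hd.ne_zero (by rw [hu, mul_zero])
    obtain ⟨ρ, hρ, hρu⟩ := WfDvdMonoid.exists_irreducible_factor hnu hu0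
    have hρ' : Prime ρ := irreducible_iff_prime.1 hρ
    have h1 : ρ ∣ d := by rw [hu]; exact hρu.mul_left _
    have h2 := hprime ρ hρ' h1
    rw [← hDV] at h2
    unfold DD at h2
    obtain ⟨i, hi, hρi⟩ := (hρ'.dvd_finsetProd_iff _).1 h2
    have h3 : fam Δ i ∣ ρ := by
      obtain ⟨c, hc⟩ := hρi
      rcases (hp.pp i).pr.irreducible.isUnit_or_isUnit hc with h4 | h4
      · exact absurd h4 hρ'.not_isUnit
      · obtain ⟨c', hc'⟩ := h4.exists_right_inv
        exact ⟨c', by rw [hc, mul_assoc, hc', mul_one]⟩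
    have h4 : i ∈ S := Finset.mem_filter.2 ⟨hi, h3.trans h1⟩
    have h5 : fam Δ i * fam Δ i ∣ d := by
      rw [hu]
      refine mul_dvd_mul ?_ (h3.trans hρu)
      unfold DD
      exact Finset.dvd_prod_of_mem _ h4
    exact (hp.pp i).pr.not_isUnit (hd _ h5)
  have hun : u.norm = 1 := by
    obtain ⟨e', rfl⟩ := huu
    exact unit_norm e'
  obtain ⟨k, hk⟩ : ∃ k : ℕ, u = im1 ^ k := by
    rcases unit_cases hun with h | h | h | h
    · exact ⟨0, by rw [h, pow_zero]⟩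
    · exact ⟨1, by rw [h, pow_one]⟩
    · exact ⟨2, h⟩
    · exact ⟨3, h⟩
  set P : ZI := DD (fam Δ) S with hP
  set Q : ZI := DD (fam Δ) Sᶜ with hQ
  have hDS : Δ = P * Q := by
    refine hDV.symm.trans ?_
    rw [hP, hQ]
    unfold DD
    exact (Finset.prod_mul_prod_compl _ _).symm
  have hdk : d = im1 ^ k * P := by rw [hu, hk, mul_comm]
  set B' : ZI := im1 ^ (σ + 3 * k) * l1 * Q with hB'
  have hdB : d * B' = D := by
    rw [hD, hdk, hB', hDS]
    have h1 : (im1 : ZI) ^ k * im1 ^ (σ + 3 * k) = im1 ^ σ := by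
      have h2 : k + (σ + 3 * k) = σ + 4 * k := by ring
      rw [← pow_add, h2, pow_add, pow_mul, im1_four, one_pow, mul_one]
    linear_combination (l1 * P * Q) * h1
  have hnd : ∀ (T : Finset {π : ZI // π ∈ PD Δ}) (j : {π : ZI // π ∈ PD Δ}), j ∉ T →
      ¬ fam Δ j ∣ DD (fam Δ) T := by
    intro T j hT h
    unfold DD at h
    obtain ⟨i, hi, hji⟩ := ((hp.pp j).pr.dvd_finsetProd_iff _).1 h
    exact not_dvd_of_ne hp (fun h' => hT (by rw [h']; exact hi)) hji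
  -- the local conditions
  have hloc : ∀ j, (j ∉ S → (k : ZMod 2) * wt (fam Δ) j + ∑ i ∈ S, Y699.em (fam Δ) i j = 0) ∧
      (j ∈ S → hO σ (fam Δ) j + (k : ZMod 2) * wt (fam Δ) j +
        ∑ i ∈ Sᶜ, Y699.em (fam Δ) i j = 0) := by
    intro j
    have hPP := hp.pp j
    have hjD : fam Δ j ∣ Δ := (Finset.dvd_prod_of_mem (fam Δ) (Finset.mem_univ j)).trans (dvd_of_eq hDV)
    have h2 := not_dvd_two hPP
    have hju : ∀ n : ℕ, ¬ fam Δ j ∣ im1 ^ n := fun n h' =>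
      hPP.pr.not_isUnit (isUnit_of_dvd_unit h' (hiu n))
    have hval : (plc e hPP.pr).valuation K (em0 e D) = WithZero.exp (-1 : ℤ) := by
      rw [hD, map_mul, map_mul, map_mul, map_mul, val_one e hPP.pr (hju σ),
        val_one e hPP.pr (hpp1 _ hPP), one_mul, one_mul, val_sqf e hPP.pr hg.sqf hjD]
    obtain ⟨h1, h3⟩ := loc_bad' (d := d) (d' := B') (D' := 1) e hPP.pr hPP
      h2 hD0 hval hw hbd (S1_red e hPP.pr h2 hD0 ht0 hval (h (plc e hPP.pr)))
    constructor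
    · intro hjS
      have h4 := h1 (fun h' => hjS (Finset.mem_filter.2 ⟨Finset.mem_univ _, h'⟩))
      rw [hdk] at h4
      exact sg_eq_one ((qr_im_DD hp k S hjS).symm.trans h4)
    · intro hjS
      have hjc : j ∉ Sᶜ := fun h6 => (Finset.mem_compl.1 h6) hjS
      have h4 := h3 hd (Finset.mem_filter.1 hjS).2 (by rw [hdB, one_pow, mul_one]) (by
        intro h'
        rcases hPP.pr.dvd_or_dvd h' with h4 | h4
        · rcases hPP.pr.dvd_or_dvd h4 with h5 | h5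
          · exact hju _ h5
          · exact hpp1 _ hPP h5
        · exact hnd _ _ hjc h4)
      have h5 := sg_eq_one ((qr_im_l1_DD hp (σ + 3 * k) Sᶜ hjc).symm.trans h4)
      rw [← h5]
      have h6 : hO σ (fam Δ) j = sl (fam Δ) j + σ * wt (fam Δ) j := rfl
      have h7 : ((σ + 3 * k : ℕ) : ZMod 2) = (σ : ZMod 2) + k := by
        push_cast
        have : (3 : ZMod 2) = 1 := rfl
        rw [this, one_mul]
      rw [h6, h7]
      ring
  -- the place `1 + i`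
  have hlast : (1 + cst σ) * (k : ZMod 2) + ∑ j ∈ S, wt (fam Δ) j = 0 := by
    have hQt : prim (Q * t ^ 2) := by
      rw [pow_two]
      exact prim_mul (DD_prim hp Sᶜ) (prim_mul htp htp)
    have hB1 : B' * t ^ 2 = pi1 * (im1 ^ (σ + 3 * k) * (Q * t ^ 2)) := by rw [hB', hl1]; ring
    have hB2 : ¬ pi1 ∣ im1 ^ (σ + 3 * k) * (Q * t ^ 2) := by
      intro h'
      rcases pi1_prime.dvd_or_dvd h' with h4 | h4
      · exact pi1_prime.not_isUnit (isUnit_of_dvd_unit h4 (hiu _))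
      · exact pi1_prim hQt h4
    have hh := h (plc e pi1_prime)
    rw [← hdB, mul_assoc] at hh
    obtain ⟨s, hs, hs2⟩ := loc_pi e hdo hB1 hB2 hw hbd hh
    obtain ⟨r1, -⟩ := res_DD hp S
    obtain ⟨r3, -⟩ := res_DD hp Sᶜ
    rw [← im_t (Q := DD (fam Δ) Sᶜ) htp] at r3
    obtain ⟨q1, q2⟩ := sq_res hs
    have key : ∀ x : ZI, pi1 ^ 5 ∣ s ^ 2 - x →
        (x = im1 ^ k * P ∨ x = im1 ^ k * P + im1 ^ (σ + 3 * k) * l1 * (Q * t ^ 2)) →
        (1 + cst σ) * (k : ZMod 2) + ∑ j ∈ S, wt (fam Δ) j = 0 := by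
      intro x hx hx2
      obtain ⟨c1, c2⟩ := dvd_five hx
      rw [Zsqrtd.im_sub] at c1
      rw [Zsqrtd.im_sub, Zsqrtd.re_sub] at c2
      exact res_u r1 (prim_odd (DD_prim hp S)).2 r3 (prim_odd hQt).2 hx2 (by omega)
        (by omega)
    rcases hs2 with h5 | h5
    · exact key d h5 (Or.inl hdk)
    · exact key _ h5 (Or.inr (by rw [hdk, hB']; ring))
  obtain ⟨hSe, hke⟩ := ker_trivial (h := hO σ (fam Δ)) (t := wt (fam Δ)) (c := 1 + cst σ)
    (A := Y699.em (fam Δ)) (S := S) (a := (k : ZMod 2)) (by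
      have h1 : (MB (hO σ (fam Δ)) (wt (fam Δ)) (1 + cst σ) (Y699.em (fam Δ)) Finset.univ).det = 1 := hdt
      rw [h1]; exact one_ne_zero) (fun j hj => (hloc j).1 hj) (fun j hj => (hloc j).2 hj) hlast
  obtain ⟨m, hm⟩ := (ZMod.natCast_eq_zero_iff_even).1 hke
  refine ⟨em0 e (im1 ^ m) * w, ?_⟩
  have hP1 : P = 1 := by rw [hP, hSe]; unfold DD; rw [Finset.prod_empty]
  rw [hbd, hdk, hP1, hm, mul_one, pow_add, map_mul]
  ring

/-- **the Selmer group** -/
theorem selOT {σ : ℕ} {Δ t : ZI} (hg : PS Δ) (hdt : dO σ Δ = 1) (htp : prim t) (htd : t ∣ Δ)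
    {b : K} (hb : b ≠ 0)
    (h : ∀ v : HeightOneSpectrum (𝓞 K), ∃ y m : v.adicCompletion K, y ≠ 0 ∧
      algebraMap K (v.adicCompletion K) b * y ^ 2 = m ∧
        S1 0 (algebraMap K (v.adicCompletion K) (em0 e (im1 ^ σ * l1 * (Δ * t ^ 2)))) m) :
    ∃ c : K, b = c ^ 2 ∨ b = em0 e (im1 ^ σ * l1 * (Δ * t ^ 2)) * c ^ 2 := by
  have hl0 : (l1 : ZI) ≠ 0 := by decide
  have him0 : ∀ n : ℕ, (im1 : ZI) ^ n ≠ 0 := fun n => pow_ne_zero n (by decide)
  have hiu : ∀ n : ℕ, IsUnit ((im1 : ZI) ^ n) := fun n =>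
    Zsqrtd.norm_eq_one_iff.1 (by rw [norm_im]; rfl)
  have hD0 : (im1 ^ σ * l1 * (Δ * t ^ 2) : ZI) ≠ 0 := DT_ne hg htp
  have hDe : (em0 e (im1 ^ σ * l1 * (Δ * t ^ 2)) : K) ≠ 0 := em0_ne e hD0
  obtain ⟨d, w, hd, hw, hbd⟩ := exists_sqf e hb
  by_cases hdo : pi1 ∣ d
  · obtain ⟨d2, w2, hd2, hw2, hbd2⟩ := exists_sqf e (div_ne_zero hDe hb)
    have hDv := val_DT (K := K) e (σ := σ) hg htp
    have hd2o : ¬ pi1 ∣ d2 := by
      intro h2
      have h3 := congrArg ((plc e pi1_prime).valuation K) hbd2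
      rw [map_div₀, hDv, hbd, map_mul, map_pow, val_sqf e _ hd hdo, map_mul, map_pow,
        val_sqf e _ hd2 h2] at h3
      have hvw : (plc e pi1_prime).valuation K w ≠ 0 := (Valuation.ne_zero_iff _).2 hw
      have hvw2 : (plc e pi1_prime).valuation K w2 ≠ 0 := (Valuation.ne_zero_iff _).2 hw2
      apply exp_sq (g := 1 / ((plc e pi1_prime).valuation K w * (plc e pi1_prime).valuation K w2))
      have he : WithZero.exp (-1 : ℤ) ≠ 0 := WithZero.exp_ne_zero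
      rw [div_pow, mul_pow, one_pow]
      field_simp at h3 ⊢
      exact h3
    obtain ⟨c, hc⟩ := sel_oddT e hg hdt htp htd hd2 hw2 hbd2 hd2o (fun v => by
      have h1 := S1_inv (L := v.adicCompletion K) ((map_ne_zero (algebraMap K (v.adicCompletion K))).2 hDe)
        ((map_ne_zero (algebraMap K (v.adicCompletion K))).2 hb) (h v)
      rw [← map_div₀] at h1
      exact h1)
    have hc0 : c ≠ 0 := by
      rintro rfl
      rw [zero_pow two_ne_zero] at hc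
      exact div_ne_zero hDe hb hc
    refine ⟨1 / c, Or.inr ?_⟩
    rw [div_eq_iff hb] at hc
    rw [hc]
    field_simp
  · obtain ⟨c, hc⟩ := sel_oddT e hg hdt htp htd hd hw hbd hdo h
    exact ⟨c, Or.inl hc⟩

variable {σ : ℕ} {Δ t : ZI}

/-- there is no element of Sha of order two -/
theorem sha_twoT (hg : PS Δ) (hdt : dO σ Δ = 1) (htp : prim t) (htd : t ∣ Δ)
    {W : WeierstrassCurve K} (hT : IsT W 0 (em0 e (im1 ^ σ * l1 * (Δ * t ^ 2)))) :
    Module.finrank ℤ (Pool.Agent.Y682.MP W) = 0 ∧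
      ∀ x : Pool.Agent.TH841.NF.D.Sha W, 2 • x = 0 → x = 0 := by
  classical
  have h20 : (im1 ^ σ * l1 * (Δ * t ^ 2) : ZI) ≠ 0 := DT_ne hg htp
  have hD0 : em0 e (im1 ^ σ * l1 * (Δ * t ^ 2)) ≠ 0 := em0_ne e h20
  let U : Set (Kˣ ⧸ Sq K) :=
    {(1 : Kˣ ⧸ Sq K), ((Units.mk0 (em0 e (im1 ^ σ * l1 * (Δ * t ^ 2))) hD0 : Kˣ) : Kˣ ⧸ Sq K)}
  have hUf : U.Finite := Set.toFinite U
  have hfin : Finite U := hUf.to_subtype
  have hU2 : Nat.card U ≤ 2 := by
    have h1 : U.ncard ≤ 2 := by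
      refine (Set.ncard_insert_le _ _).trans ?_
      rw [Set.ncard_singleton]
    exact h1
  have key : ∀ b : Kˣ, (∃ c : K, (b : K) = c ^ 2 ∨ (b : K) = em0 e (im1 ^ σ * l1 * (Δ * t ^ 2)) * c ^ 2) →
      (b : Kˣ ⧸ Sq K) ∈ U := by
    rintro b ⟨c, hc⟩
    have hc0 : c ≠ 0 := by
      rintro rfl
      rcases hc with hc | hc
      · rw [zero_pow two_ne_zero] at hc; exact b.ne_zero hc
      · rw [zero_pow two_ne_zero, mul_zero] at hc; exact b.ne_zero hc
    rcases hc with hc | hc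
    · left
      have h1 : (1 : Kˣ ⧸ Sq K) = ((1 : Kˣ) : Kˣ ⧸ Sq K) := rfl
      rw [h1, eq_comm, quot_eq]
      refine ⟨Units.mk0 c hc0, Units.ext ?_⟩
      rw [Units.val_mul, Units.val_one, one_mul, Units.val_pow_eq_pow_val, Units.val_mk0, hc]
    · right
      show (b : Kˣ ⧸ Sq K) = ((Units.mk0 (em0 e (im1 ^ σ * l1 * (Δ * t ^ 2))) hD0 : Kˣ) : Kˣ ⧸ Sq K)
      rw [eq_comm, quot_eq]
      refine ⟨Units.mk0 c hc0, Units.ext ?_⟩
      rw [Units.val_mul, Units.val_pow_eq_pow_val, Units.val_mk0, Units.val_mk0, hc]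
  have H1 : ∀ b : Kˣ, LL1 (0 : K) (em0 e (im1 ^ σ * l1 * (Δ * t ^ 2))) (b : K) → (b : Kˣ ⧸ Sq K) ∈ U := by
    intro b hb
    apply key
    apply selOT e hg hdt htp htd b.ne_zero
    intro v
    have := hb.1 v
    rwa [map_zero] at this
  have H2 : ∀ b : Kˣ, LL2 (0 : K) (em0 e (im1 ^ σ * l1 * (Δ * t ^ 2))) (b : K) → (b : Kˣ ⧸ Sq K) ∈ U := by
    intro b hb
    apply key
    apply selOT e hg hdt htp htd b.ne_zero
    intro v
    have := Pool.Agent.Y682.charZero_adic v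
    have h1 := hb.1 v
    rw [map_zero] at h1
    refine S2_S1 (i := algebraMap K (v.adicCompletion K) (em0 e im1)) ?_ h1
    rw [← map_pow, Pool.Agent.Y715.Z.im1_sq, map_neg, map_one]
  obtain ⟨hf, hc⟩ := Zc_card hT (U := U) (V := U) (Or.inl rfl) H1 H2
  obtain ⟨h3, h4⟩ := Zc_lower hT
  have h6 : Nat.card (Zc W) ≤ 4 := hc.trans (by nlinarith)
  have h8 := h4.trans h6
  have h9 : 0 < Nat.card {x : Pool.Agent.TH841.NF.D.Sha W // 2 • x = 0} := by
    have : Nonempty {x : Pool.Agent.TH841.NF.D.Sha W // 2 • x = 0} := ⟨⟨0, smul_zero _⟩⟩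
    exact Nat.card_pos
  have h7 : 1 ≤ 2 ^ (Module.finrank ℤ (Pool.Agent.Y682.MP W)) := Nat.one_le_two_pow
  have h10 : 2 ^ (Module.finrank ℤ (Pool.Agent.Y682.MP W)) ≤ 1 := by nlinarith
  have h5 : Nat.card {x : Pool.Agent.TH841.NF.D.Sha W // 2 • x = 0} ≤ 1 := by nlinarith
  refine ⟨?_, fun x hx => ?_⟩
  · by_contra h0
    have h11 : 2 ^ 1 ≤ 2 ^ (Module.finrank ℤ (Pool.Agent.Y682.MP W)) :=
      Nat.pow_le_pow_right (by norm_num) (Nat.one_le_iff_ne_zero.2 h0)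
    omega
  · have h6 : Subsingleton {x : Pool.Agent.TH841.NF.D.Sha W // 2 • x = 0} :=
      Finite.card_le_one_iff_subsingleton.1 h5
    have h7 := @Subsingleton.elim _ h6 ⟨x, hx⟩ ⟨0, smul_zero _⟩
    exact congrArg Subtype.val h7

/-- the 2-primary part of Sha is trivial -/
theorem sha_powT (hg : PS Δ) (hdt : dO σ Δ = 1) (htp : prim t) (htd : t ∣ Δ)
    {W : WeierstrassCurve K} (hT : IsT W 0 (em0 e (im1 ^ σ * l1 * (Δ * t ^ 2))))
    (n : ℕ) (x : Pool.Agent.TH841.NF.D.Sha W) (hx : 2 ^ n • x = 0) : x = 0 := by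
  induction n with
  | zero => rwa [pow_zero, one_smul] at hx
  | succ n ih =>
    apply ih
    apply (sha_twoT e hg hdt htp htd hT).2
    rw [smul_smul, mul_comm, ← pow_succ]
    exact hx

end

/-- **module SELOT** -/
theorem selot : Pool.Agent.D0H43.MQ.S_SELOT := by
  intro σ K _ _ e Δ t hg hdt htp htd
  have h20 := DT_ne (σ := σ) hg htp
  have hT : IsT (cO e σ (Δ * t ^ 2)) 0 (em0 e (im1 ^ σ * l1 * (Δ * t ^ 2))) := by
    refine ⟨rfl, rfl, rfl, rfl, rfl, em0_ne e h20, ?_⟩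
    rw [zero_pow two_ne_zero, zero_sub, neg_ne_zero]
    exact mul_ne_zero (by norm_num) (em0_ne e h20)
  exact ⟨(sha_twoT e hg hdt htp htd hT).1, fun n x hx => sha_powT e hg hdt htp htd hT n x hx⟩

end Pool.Agent.D0H70.MQ
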