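import Pool.Agent.D0H43.MQ.Stm

set_option autoImplicit false

/-! Splitting of the primes in a quadratic extension (project MQ, module SPL2). -/

open NumberField IsDedekindDomain

namespace Pool.Agent.D0H70.MQ

open Pool.Agent.D0H43.MQ

/-- Copy of `Pool.Agent.D0H43.RZ.exists_sigma` (helper43). -/
theorem exists_sigma {K F : Type} [Field K] [Field F] [CharZero K] [Algebra K F] {d : K} {θ : F}
    (h2 : Module.finrank K F = 2) (hθ : θ ^ 2 = algebraMap K F d)
    (hn : ∀ x : K, algebraMap K F x ≠ θ) :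
    ∃ σ : F →ₐ[K] F, σ θ = -θ := by
  have hquad : Algebra.IsQuadraticExtension K F := ⟨h2⟩
  have hfdim : FiniteDimensional K F := FiniteDimensional.of_finrank_pos (by omega)
  have hb : ∀ x : F, x ∈ (⊥ : IntermediateField K F) ↔ ∃ y, algebraMap K F y = x := fun x =>
    IntermediateField.mem_bot
  obtain ⟨σ, hσ⟩ : ∃ σ : Gal(F/K), σ θ ≠ θ := by
    by_contra hcon
    push Not at hcon
    obtain ⟨y, hy⟩ := (hb θ).1 ((IsGalois.mem_bot_iff_fixed θ).2 hcon)
    exact hn y hy
  refine ⟨σ.toAlgHom, ?_⟩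
  have h3 : (σ θ) ^ 2 = θ ^ 2 := by
    rw [← map_pow, hθ]
    exact σ.commutes d
  rcases sq_eq_sq_iff_eq_or_eq_neg.1 h3 with h | h
  · exact absurd h hσ
  · exact h

theorem comb {ι : Type*} [Fintype ι] (e f : ι → ℕ) (he : ∀ i, 0 < e i) (hf : ∀ i, 0 < f i)
    (hs : ∑ i, e i * f i = 2) :
    (2 ≤ Fintype.card ι → Fintype.card ι = 2 ∧ ∀ i, f i = 1) ∧
    ((∀ i, f i ≠ 1) → Fintype.card ι = 1 ∧ ∀ i, f i = 2) := by
  constructor
  · intro h2
    have h1 : ∑ _i : ι, 1 ≤ ∑ i, e i * f i :=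
      Finset.sum_le_sum fun i _ => Nat.mul_pos (he i) (hf i)
    have h3 : ∑ _i : ι, 1 = Fintype.card ι := by simp
    refine ⟨by omega, fun i => ?_⟩
    have h4 : ∑ _i : ι, 1 = ∑ i, e i * f i := by omega
    have h5 := (Finset.sum_eq_sum_iff_of_le (fun i _ => Nat.mul_pos (he i) (hf i))).1 h4 i
      (Finset.mem_univ i)
    exact Nat.eq_one_of_mul_eq_one_left h5.symm
  · intro h2
    have h1 : ∑ _i : ι, 2 ≤ ∑ i, e i * f i := by
      refine Finset.sum_le_sum fun i _ => ?_
      have h3 := he i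
      have h4 := hf i
      have h5 := h2 i
      nlinarith [show 2 ≤ f i by omega]
    have h3 : ∑ _i : ι, 2 = Fintype.card ι * 2 := by simp
    have h4 : Fintype.card ι ≠ 0 := by
      intro h0
      have : IsEmpty ι := Fintype.card_eq_zero_iff.1 h0
      simp at hs
    refine ⟨by omega, fun i => ?_⟩
    have h5 : e i * f i ≤ 2 := by
      rw [← hs]
      exact Finset.single_le_sum (f := fun i => e i * f i) (fun _ _ => Nat.zero_le _)
        (Finset.mem_univ i)
    have h6 := he i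
    have h7 := hf i
    have h8 := h2 i
    nlinarith [show 2 ≤ f i by omega]

theorem spl2 : S_SPL2 := by
  intro L F _ _ _ _ _ h2 d θ hθ hn w hw
  have hwm : w.asIdeal.IsMaximal := w.isMaximal
  have hw0 : w.asIdeal ≠ ⊥ := w.ne_bot
  let S := w.asIdeal.primesOver (𝓞 F)
  have hSf : Finite S := (IsDedekindDomain.primesOver_finite w.asIdeal (𝓞 F)).to_subtype
  let : Fintype S := Fintype.ofFinite S
  have hfin : Module.finrank (𝓞 L) (𝓞 F) = 2 := by
    rw [← h2]
    exact (IsFractionRing.finrank_eq (𝓞 L) L (𝓞 F) F).symm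
  have hsum := Ideal.sum_ramification_inertia_eq_finrank (R := 𝓞 L) (S := 𝓞 F) w.asIdeal
  rw [hfin] at hsum
  have hpr : ∀ q : S, q.1.IsPrime := fun q => q.2.1
  have hlo : ∀ q : S, q.1.LiesOver w.asIdeal := fun q => q.2.2
  have hmx : ∀ q : S, q.1.IsMaximal := fun q => by
    have := hpr q
    have := hlo q
    exact Ideal.IsMaximal.of_liesOver_isMaximal q.1 w.asIdeal
  have hcard : ∀ q : S, Nat.card (𝓞 F ⧸ q.1) = qn w ^ (q.1.inertiaDeg (𝓞 L)) := fun q => by
    have := hpr q
    have := hlo q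
    have := hmx q
    have h3 := Ideal.cardQuot_pow_inertiaDeg w.asIdeal q.1
    exact h3.symm
  obtain ⟨hc1, hc2⟩ := comb (fun q : S => q.1.ramificationIdx (𝓞 L)) (fun q : S => q.1.inertiaDeg (𝓞 L))
    (fun q => by
      have := hpr q
      exact Ideal.ramificationIdx_pos q.1 (𝓞 L))
    (fun q => by
      have := hpr q
      exact Ideal.inertiaDeg_pos q.1 (𝓞 L)) hsum
  -- the places of `F` above `w`
  let T := {v : HeightOneSpectrum (𝓞 F) //
      v.asIdeal.comap (algebraMap (𝓞 L) (𝓞 F)) = w.asIdeal}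
  let g : T → S := fun v => ⟨v.1.asIdeal, v.1.isPrime, ⟨v.2.symm⟩⟩
  have hg : Function.Bijective g := by
    constructor
    · intro a b hab
      exact Subtype.ext (HeightOneSpectrum.ext (congrArg Subtype.val hab))
    · intro q
      have h0 : q.1 ≠ ⊥ := Ideal.ne_bot_of_mem_primesOver hw0 q.2
      exact ⟨⟨⟨q.1, hpr q, h0⟩, (hlo q).over.symm⟩, rfl⟩
  have hTS : Nat.card T = Fintype.card S := by
    rw [Nat.card_congr (Equiv.ofBijective g hg), Nat.card_eq_fintype_card]
  have hmem : ∀ q : S, ∀ x : 𝓞 L, algebraMap (𝓞 L) (𝓞 F) x ∈ q.1 ↔ x ∈ w.asIdeal := fun q x => by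
    have h3 := (hlo q).over
    rw [h3]
    rfl
  constructor
  · rintro ⟨c, hc⟩
    have h3 : 2 ≤ Fintype.card S := by
      obtain ⟨σ, hσ⟩ := exists_sigma (K := L) (F := F) (d := (d : L)) (θ := (θ : F)) h2
        (by rw [← map_pow, hθ]; rfl) hn
      let σ₀ : 𝓞 F →+* 𝓞 F := RingOfIntegers.mapRingHom σ.toRingHom
      have hσθ : σ₀ θ = - θ := by
        apply RingOfIntegers.ext
        exact hσ
      have hσL : ∀ x : 𝓞 L, σ₀ (algebraMap (𝓞 L) (𝓞 F) x) = algebraMap (𝓞 L) (𝓞 F) x := fun x => by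
        apply RingOfIntegers.ext
        exact σ.commutes (x : L)
      obtain ⟨P⟩ : Nonempty S := by
        by_contra hcon
        rw [not_nonempty_iff] at hcon
        simp at hsum
      have hP := hpr P
      have hPo : (P.1.comap σ₀) ∈ w.asIdeal.primesOver (𝓞 F) := by
        refine ⟨Ideal.IsPrime.comap σ₀, ⟨?_⟩⟩
        ext x
        rw [← hmem P x]
        show _ ↔ σ₀ (algebraMap (𝓞 L) (𝓞 F) x) ∈ P.1
        rw [hσL]
      let P' : S := ⟨P.1.comap σ₀, hPo⟩
      have hne : P' ≠ P := by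
        intro hPP
        have hPP' : P.1.comap σ₀ = P.1 := congrArg Subtype.val hPP
        have h4 : (θ - algebraMap (𝓞 L) (𝓞 F) c) * (θ + algebraMap (𝓞 L) (𝓞 F) c) ∈ P.1 := by
          have h5 : (θ - algebraMap (𝓞 L) (𝓞 F) c) * (θ + algebraMap (𝓞 L) (𝓞 F) c) =
              - algebraMap (𝓞 L) (𝓞 F) (c ^ 2 - d) := by
            rw [map_sub, map_pow, ← hθ]
            ring
          rw [h5]
          exact P.1.neg_mem ((hmem P _).2 hc)
        have h6 : algebraMap (𝓞 L) (𝓞 F) (2 * c) ∈ P.1 := by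
          rcases hP.mem_or_mem h4 with h5 | h5
          · have h7 : σ₀ (θ - algebraMap (𝓞 L) (𝓞 F) c) ∈ P.1 := by
              rw [← Ideal.mem_comap, hPP']
              exact h5
            rw [map_sub, hσθ, hσL] at h7
            have h8 := P.1.neg_mem (P.1.add_mem h5 h7)
            have h9 : algebraMap (𝓞 L) (𝓞 F) (2 * c) =
                -(θ - algebraMap (𝓞 L) (𝓞 F) c + (-θ - algebraMap (𝓞 L) (𝓞 F) c)) := by
              rw [map_mul, map_ofNat]
              ring
            rw [h9]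
            exact h8
          · have h7 : σ₀ (θ + algebraMap (𝓞 L) (𝓞 F) c) ∈ P.1 := by
              rw [← Ideal.mem_comap, hPP']
              exact h5
            rw [map_add, hσθ, hσL] at h7
            have h8 := P.1.add_mem h5 h7
            have h9 : algebraMap (𝓞 L) (𝓞 F) (2 * c) =
                (θ + algebraMap (𝓞 L) (𝓞 F) c + (-θ + algebraMap (𝓞 L) (𝓞 F) c)) := by
              rw [map_mul, map_ofNat]
              ring
            rw [h9]
            exact h8
        have h7 : 2 * c ∈ w.asIdeal := (hmem P _).1 h6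
        apply hw
        have h8 : 2 * d = c * (2 * c) - 2 * (c ^ 2 - d) := by ring
        rw [h8]
        exact w.asIdeal.sub_mem (w.asIdeal.mul_mem_left _ h7) (w.asIdeal.mul_mem_left _ hc)
      have : Fintype.card S ≠ 1 ∧ Fintype.card S ≠ 0 := by
        constructor
        · intro h1
          obtain ⟨x, hx⟩ := Fintype.card_eq_one_iff.1 h1
          exact hne ((hx P').trans (hx P).symm)
        · intro h0
          have : IsEmpty S := Fintype.card_eq_zero_iff.1 h0
          exact this.elim P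
      omega
    obtain ⟨h4, h5⟩ := hc1 h3
    refine ⟨hTS.trans h4, fun v hv => ?_⟩
    have h6 := hcard (g ⟨v, hv⟩)
    have h7 := h5 (g ⟨v, hv⟩)
    rw [h7, pow_one] at h6
    exact h6
  · intro hsq
    have h3 : ∀ q : S, q.1.inertiaDeg (𝓞 L) ≠ 1 := by
      intro q hq
      have h4 := hcard q
      rw [hq, pow_one] at h4
      have hP := hpr q
      have hM := hmx q
      let φ : (𝓞 L ⧸ w.asIdeal) →+* (𝓞 F ⧸ q.1) := Ideal.quotientMap q.1 (algebraMap (𝓞 L) (𝓞 F))
        (fun x hx => (hmem q x).2 hx)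
      have hinj : Function.Injective φ := by
        rw [injective_iff_map_eq_zero]
        intro x hx
        obtain ⟨y, rfl⟩ := Ideal.Quotient.mk_surjective x
        rw [Ideal.quotientMap_mk, Ideal.Quotient.eq_zero_iff_mem, hmem q] at hx
        exact Ideal.Quotient.eq_zero_iff_mem.2 hx
      have hfin1 : Finite (𝓞 L ⧸ w.asIdeal) := Ideal.finiteQuotientOfFreeOfNeBot _ hw0
      have hfin2 : Finite (𝓞 F ⧸ q.1) :=
        Ideal.finiteQuotientOfFreeOfNeBot _ (Ideal.ne_bot_of_mem_primesOver hw0 q.2)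
      have hsurj : Function.Surjective φ :=
        ((Nat.bijective_iff_injective_and_card φ).2 ⟨hinj, h4.symm⟩).2
      obtain ⟨x, hx⟩ := hsurj (Ideal.Quotient.mk q.1 θ)
      obtain ⟨c, rfl⟩ := Ideal.Quotient.mk_surjective x
      rw [Ideal.quotientMap_mk, Ideal.Quotient.eq] at hx
      apply hsq
      refine ⟨c, (hmem q _).1 ?_⟩
      have h5 : algebraMap (𝓞 L) (𝓞 F) (c ^ 2 - d) =
          (algebraMap (𝓞 L) (𝓞 F) c + θ) * (algebraMap (𝓞 L) (𝓞 F) c - θ) := by
        rw [map_sub, map_pow, ← hθ]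
        ring
      rw [h5]
      exact q.1.mul_mem_left _ hx
    obtain ⟨h4, h5⟩ := hc2 h3
    refine ⟨hTS.trans h4, fun v hv => ?_⟩
    have h6 := hcard (g ⟨v, hv⟩)
    have h7 := h5 (g ⟨v, hv⟩)
    rw [h7] at h6
    exact h6

end Pool.Agent.D0H70.MQ
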