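import Pool.Agent.D0H43.MQ.Stm
import Pool.Agent.H921R2.TatePole.Dedekind

set_option autoImplicit false

/-! The Euler product over a quadratic extension (project MQ, module STEP). -/

open NumberField IsDedekindDomain Filter

namespace Pool.Agent.D0H70.MQ

open Pool.Agent.D0H43.MQ
open Pool.Agent.H921R2.TatePole (nm nm_summable two_le_nm)

theorem np_equiv {k k' : Type} [CommRing k] [CommRing k'] (φ : k ≃+* k') (A : k) :
    np (φ A) = np A := by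
  unfold np
  refine (Nat.card_congr ((φ.toEquiv.prodCongr φ.toEquiv).subtypeEquiv fun P => ?_)).symm
  show P.2 ^ 2 = P.1 ^ 3 + A * P.1 ↔ (φ P.2) ^ 2 = (φ P.1) ^ 3 + φ A * φ P.1
  rw [← map_pow, ← map_pow, ← map_mul, ← map_add]
  exact φ.injective.eq_iff.symm

section
variable {L : Type} [Field L] [NumberField L]

theorem qn_eq (v : HeightOneSpectrum (𝓞 L)) : qn v = nm v := by
  unfold qn nm
  rw [Ideal.absNorm_apply, Submodule.cardQuot_apply]

theorem qn_two_le (v : HeightOneSpectrum (𝓞 L)) : 2 ≤ qn v := by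
  rw [qn_eq]
  exact two_le_nm v

theorem finite_quot (v : HeightOneSpectrum (𝓞 L)) : Finite (𝓞 L ⧸ v.asIdeal) :=
  Ideal.finiteQuotientOfFreeOfNeBot v.asIdeal v.ne_bot

theorem mk_ne (v : HeightOneSpectrum (𝓞 L)) {x : 𝓞 L} (h : x ∉ v.asIdeal) :
    Ideal.Quotient.mk v.asIdeal x ≠ 0 := fun h' => h (Ideal.Quotient.eq_zero_iff_mem.1 h')

theorem ringChar_ne (v : HeightOneSpectrum (𝓞 L)) (h : (2 : 𝓞 L) ∉ v.asIdeal) :
    ringChar (𝓞 L ⧸ v.asIdeal) ≠ 2 := by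
  intro h2
  have h3 := (ringChar.spec (𝓞 L ⧸ v.asIdeal) 2).2 (by rw [h2])
  apply h
  rw [← Ideal.Quotient.eq_zero_iff_mem, map_ofNat]
  exact_mod_cast h3

/-- The quadratic twist. -/
theorem loc_twist (hF : S_FF2) (v : HeightOneSpectrum (𝓞 L)) (A d : 𝓞 L)
    (h2 : (2 : 𝓞 L) ∉ v.asIdeal) (hA : A ∉ v.asIdeal) (hd : d ∉ v.asIdeal) :
    ((∃ c : 𝓞 L, c ^ 2 - d ∈ v.asIdeal) → tn (d ^ 2 * A) v = tn A v) ∧
    ((¬ ∃ c : 𝓞 L, c ^ 2 - d ∈ v.asIdeal) → tn (d ^ 2 * A) v = - tn A v) ∧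
    |(tn A v : ℝ)| ≤ qn v := by
  have hmax : v.asIdeal.IsMaximal := v.isMaximal
  let : Field (𝓞 L ⧸ v.asIdeal) := Ideal.Quotient.field v.asIdeal
  have hfin := finite_quot v
  let : Fintype (𝓞 L ⧸ v.asIdeal) := Fintype.ofFinite _
  obtain ⟨-, hb, hc, hd'⟩ := hF (𝓞 L ⧸ v.asIdeal) (ringChar_ne v h2) (Ideal.Quotient.mk v.asIdeal A)
    (mk_ne v hA)
  refine ⟨?_, ?_, ?_⟩
  · rintro ⟨c, hcd⟩
    have e1 : Ideal.Quotient.mk v.asIdeal d = (Ideal.Quotient.mk v.asIdeal c) ^ 2 := by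
      rw [← map_pow]
      exact (Ideal.Quotient.eq.2 hcd).symm
    have hc0 : Ideal.Quotient.mk v.asIdeal c ≠ 0 := by
      intro h0
      apply mk_ne v hd
      rw [e1, h0]
      norm_num
    have h3 := hb (Ideal.Quotient.mk v.asIdeal c) hc0
    unfold tn
    rw [map_mul, map_pow, e1, ← pow_mul]
    rw [show 2 * 2 = 4 from rfl]
    congr 2
  · intro hns
    have h3 := hc (Ideal.Quotient.mk v.asIdeal d) (by
      rintro ⟨c, hcd⟩
      obtain ⟨c, rfl⟩ := Ideal.Quotient.mk_surjective c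
      rw [← map_pow] at hcd
      exact hns ⟨c, Ideal.Quotient.eq.1 hcd⟩)
    unfold tn qn
    rw [map_mul, map_pow, Nat.card_eq_fintype_card]
    exact h3
  · have h3 : np (Ideal.Quotient.mk v.asIdeal A) ≤ 2 * qn v := by
      unfold qn
      rw [Nat.card_eq_fintype_card]
      exact hd'
    have h4 : (np (Ideal.Quotient.mk v.asIdeal A) : ℝ) ≤ 2 * qn v := by exact_mod_cast h3
    unfold tn
    push_cast
    rw [abs_le]
    constructor
    · linarith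
    · have : (0 : ℝ) ≤ np (Ideal.Quotient.mk v.asIdeal A) := Nat.cast_nonneg _
      linarith

open Complex in
theorem fac_sub_bound (v : HeightOneSpectrum (𝓞 L)) (A : 𝓞 L) (ht : |(tn A v : ℝ)| ≤ qn v)
    (s : ℂ) (hs : 2 < s.re) (hsmall : (nm v : ℝ) ^ (-(s.re - 1)) ≤ 1 / 4) :
    ‖fac A s v - 1‖ ≤ 4 * (nm v : ℝ) ^ (-(s.re - 1)) := by
  have hn0 : (0 : ℝ) < nm v := by
    have := two_le_nm v
    exact_mod_cast (by omega : 0 < nm v)
  have hn1 : (1 : ℝ) ≤ nm v := by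
    have := two_le_nm v
    exact_mod_cast (by omega : 1 ≤ nm v)
  unfold fac
  rw [qn_eq] at ht ⊢
  set t : ℤ := tn A v with htt
  set w : ℝ := (nm v : ℝ) ^ (-(s.re - 1)) with hw
  have e1 : ‖((nm v : ℕ) : ℂ) ^ (-s)‖ = (nm v : ℝ) ^ (-s.re) := by
    have := Complex.norm_natCast_cpow_of_pos (n := nm v) (by exact_mod_cast hn0) (-s)
    rw [Complex.neg_re] at this
    exact this
  set u : ℂ := -((t : ℂ) * ((nm v : ℕ) : ℂ) ^ (-s)) + (nm v : ℂ) * (((nm v : ℕ) : ℂ) ^ (-s)) ^ 2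
    with hu
  have hu1 : ‖u‖ ≤ 2 * w := by
    have h1 : ‖(t : ℂ) * ((nm v : ℕ) : ℂ) ^ (-s)‖ ≤ w := by
      rw [norm_mul, e1, Complex.norm_intCast]
      calc |(t : ℝ)| * (nm v : ℝ) ^ (-s.re) ≤ (nm v : ℝ) * (nm v : ℝ) ^ (-s.re) :=
            mul_le_mul_of_nonneg_right ht (by positivity)
        _ = (nm v : ℝ) ^ (1 : ℝ) * (nm v : ℝ) ^ (-s.re) := by rw [Real.rpow_one]
        _ = w := by
            rw [hw, ← Real.rpow_add hn0]
            congr 1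
            ring
    have h2 : ‖(nm v : ℂ) * (((nm v : ℕ) : ℂ) ^ (-s)) ^ 2‖ ≤ w := by
      rw [norm_mul, norm_pow, e1, Complex.norm_natCast]
      calc (nm v : ℝ) * ((nm v : ℝ) ^ (-s.re)) ^ 2
          = (nm v : ℝ) ^ (1 : ℝ) * ((nm v : ℝ) ^ (-s.re) * (nm v : ℝ) ^ (-s.re)) := by
            rw [Real.rpow_one, pow_two]
        _ = (nm v : ℝ) ^ (1 - 2 * s.re) := by
            rw [← Real.rpow_add hn0, ← Real.rpow_add hn0]
            congr 1
            ring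
        _ ≤ w := by
            rw [hw]
            apply Real.rpow_le_rpow_of_exponent_le hn1
            linarith
    calc ‖u‖ ≤ ‖-((t : ℂ) * ((nm v : ℕ) : ℂ) ^ (-s))‖ + _ := norm_add_le _ _
      _ ≤ w + w := add_le_add (by rwa [norm_neg]) h2
      _ = 2 * w := by ring
  have e3 : (1 - (t : ℂ) * ((nm v : ℕ) : ℂ) ^ (-s) + (nm v : ℂ) * (((nm v : ℕ) : ℂ) ^ (-s)) ^ 2) =
      1 + u := by
    rw [hu]; ring
  rw [e3]
  have hu2 : ‖u‖ ≤ 1 / 2 := by linarith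
  have h3 : 1 / 2 ≤ ‖1 + u‖ := by
    have := norm_sub_norm_le (1 : ℂ) (-u)
    rw [sub_neg_eq_add, norm_neg, norm_one] at this
    linarith
  have hne : 1 + u ≠ 0 := by
    intro h
    rw [h, norm_zero] at h3
    linarith
  have e4 : (1 + u)⁻¹ - 1 = -u / (1 + u) := by field_simp; ring
  rw [e4, norm_div, norm_neg, div_le_iff₀ (by linarith)]
  nlinarith [norm_nonneg u]

theorem multipliable_fac (A M : 𝓞 L) (ht : ∀ v : HeightOneSpectrum (𝓞 L), M ∉ v.asIdeal →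
    |(tn A v : ℝ)| ≤ qn v) (s : ℂ) (hs : 2 < s.re) :
    Multipliable (fun v : {v : HeightOneSpectrum (𝓞 L) // M ∉ v.asIdeal} => fac A s v.1) := by
  have hsum := (nm_summable (K := L) (x := s.re - 1) (by linarith)).comp_injective
    (Subtype.val_injective : Function.Injective
      (Subtype.val : {v : HeightOneSpectrum (𝓞 L) // M ∉ v.asIdeal} → _))
  have h1 : Summable (fun v : {v : HeightOneSpectrum (𝓞 L) // M ∉ v.asIdeal} =>
      ‖fac A s v.1 - 1‖) := by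
    refine Summable.of_norm_bounded_eventually (hsum.mul_left 4) ?_
    have h2 := hsum.tendsto_cofinite_zero.eventually (Iio_mem_nhds (by norm_num : (0 : ℝ) < 1 / 4))
    filter_upwards [h2] with v hv
    rw [norm_norm]
    exact fac_sub_bound v.1 A (ht v.1 v.2) s hs (le_of_lt hv)
  have h2 := multipliable_one_add_of_summable h1
  refine h2.congr (fun v => ?_)
  ring

end

section ext
variable {L F : Type} [Field L] [NumberField L] [Field F] [NumberField F] [Algebra L F]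

/-- The map of the residue fields. -/
noncomputable def rmap (w : HeightOneSpectrum (𝓞 L)) (v : HeightOneSpectrum (𝓞 F))
    (h : v.asIdeal.comap (algebraMap (𝓞 L) (𝓞 F)) = w.asIdeal) :
    (𝓞 L ⧸ w.asIdeal) →+* (𝓞 F ⧸ v.asIdeal) :=
  Ideal.quotientMap v.asIdeal (algebraMap (𝓞 L) (𝓞 F)) h.ge

theorem rmap_mk (w : HeightOneSpectrum (𝓞 L)) (v : HeightOneSpectrum (𝓞 F))
    (h : v.asIdeal.comap (algebraMap (𝓞 L) (𝓞 F)) = w.asIdeal) (x : 𝓞 L) :
    rmap w v h (Ideal.Quotient.mk w.asIdeal x) =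
      Ideal.Quotient.mk v.asIdeal (algebraMap (𝓞 L) (𝓞 F) x) :=
  Ideal.quotientMap_mk

theorem rmap_inj (w : HeightOneSpectrum (𝓞 L)) (v : HeightOneSpectrum (𝓞 F))
    (h : v.asIdeal.comap (algebraMap (𝓞 L) (𝓞 F)) = w.asIdeal) :
    Function.Injective (rmap w v h) :=
  Ideal.quotientMap_injective' h.le

theorem tn_split (w : HeightOneSpectrum (𝓞 L)) (v : HeightOneSpectrum (𝓞 F))
    (h : v.asIdeal.comap (algebraMap (𝓞 L) (𝓞 F)) = w.asIdeal) (hq : qn v = qn w) (A : 𝓞 L) :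
    tn (algebraMap (𝓞 L) (𝓞 F) A) v = tn A w := by
  have hf1 := finite_quot w
  have hf2 := finite_quot v
  have hbij : Function.Bijective (rmap w v h) :=
    (Nat.bijective_iff_injective_and_card _).2 ⟨rmap_inj w v h, hq.symm⟩
  have h1 := np_equiv (RingEquiv.ofBijective (rmap w v h) hbij) (Ideal.Quotient.mk w.asIdeal A)
  have h2 : (RingEquiv.ofBijective (rmap w v h) hbij) (Ideal.Quotient.mk w.asIdeal A) =
      Ideal.Quotient.mk v.asIdeal (algebraMap (𝓞 L) (𝓞 F) A) := rmap_mk w v h A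
  rw [h2] at h1
  unfold tn
  rw [h1, hq]

theorem tn_inert (hF : S_FF2) (w : HeightOneSpectrum (𝓞 L)) (v : HeightOneSpectrum (𝓞 F))
    (h : v.asIdeal.comap (algebraMap (𝓞 L) (𝓞 F)) = w.asIdeal) (hq : qn v = qn w ^ 2) (A : 𝓞 L)
    (h2 : (2 : 𝓞 L) ∉ w.asIdeal) (hA : A ∉ w.asIdeal) :
    tn (algebraMap (𝓞 L) (𝓞 F) A) v = (tn A w) ^ 2 - 2 * (qn w : ℤ) := by
  have hf1 := finite_quot w
  have hf2 := finite_quot v
  have hm1 : w.asIdeal.IsMaximal := w.isMaximal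
  have hm2 : v.asIdeal.IsMaximal := v.isMaximal
  let : Field (𝓞 L ⧸ w.asIdeal) := Ideal.Quotient.field w.asIdeal
  let : Field (𝓞 F ⧸ v.asIdeal) := Ideal.Quotient.field v.asIdeal
  let : Fintype (𝓞 L ⧸ w.asIdeal) := Fintype.ofFinite _
  let : Fintype (𝓞 F ⧸ v.asIdeal) := Fintype.ofFinite _
  let : Algebra (𝓞 L ⧸ w.asIdeal) (𝓞 F ⧸ v.asIdeal) := (rmap w v h).toAlgebra
  obtain ⟨ha, -⟩ := hF (𝓞 L ⧸ w.asIdeal) (ringChar_ne w h2) (Ideal.Quotient.mk w.asIdeal A)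
    (mk_ne w hA)
  have hfr : Module.finrank (𝓞 L ⧸ w.asIdeal) (𝓞 F ⧸ v.asIdeal) = 2 := by
    have h3 : Nat.card (𝓞 F ⧸ v.asIdeal) = Nat.card (𝓞 L ⧸ w.asIdeal) ^
        Module.finrank (𝓞 L ⧸ w.asIdeal) (𝓞 F ⧸ v.asIdeal) := Module.natCard_eq_pow_finrank
    have h4 : Nat.card (𝓞 F ⧸ v.asIdeal) = Nat.card (𝓞 L ⧸ w.asIdeal) ^ 2 := hq
    rw [h4] at h3
    exact (Nat.pow_right_injective (qn_two_le w) h3).symm
  have h3 := ha (𝓞 F ⧸ v.asIdeal) hfr
  have h4 : algebraMap (𝓞 L ⧸ w.asIdeal) (𝓞 F ⧸ v.asIdeal) (Ideal.Quotient.mk w.asIdeal A) =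
      Ideal.Quotient.mk v.asIdeal (algebraMap (𝓞 L) (𝓞 F) A) := rmap_mk w v h A
  rw [h4] at h3
  unfold tn qn
  rw [Nat.card_eq_fintype_card, Nat.card_eq_fintype_card]
  exact h3

theorem fibre (hF : S_FF2) (hS : S_SPL2) (h2 : Module.finrank L F = 2) (A d : 𝓞 L) (θ : 𝓞 F)
    (hθ : θ ^ 2 = algebraMap (𝓞 L) (𝓞 F) d) (hn : ∀ x : L, algebraMap L F x ≠ θ) (s : ℂ)
    (w : HeightOneSpectrum (𝓞 L)) (hw : 2 * A * d ∉ w.asIdeal) :
    ∃ c : ℂ, c ^ Nat.card {v : HeightOneSpectrum (𝓞 F) //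
        v.asIdeal.comap (algebraMap (𝓞 L) (𝓞 F)) = w.asIdeal} = fac A s w * fac (d ^ 2 * A) s w ∧
      Nat.card {v : HeightOneSpectrum (𝓞 F) //
        v.asIdeal.comap (algebraMap (𝓞 L) (𝓞 F)) = w.asIdeal} ≠ 0 ∧
      ∀ v : HeightOneSpectrum (𝓞 F), v.asIdeal.comap (algebraMap (𝓞 L) (𝓞 F)) = w.asIdeal →
        fac (algebraMap (𝓞 L) (𝓞 F) A) s v = c := by
  have hw2 : (2 : 𝓞 L) ∉ w.asIdeal := fun h => hw (by
    rw [mul_assoc]; exact w.asIdeal.mul_mem_right _ h)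
  have hwA : A ∉ w.asIdeal := fun h => hw (w.asIdeal.mul_mem_right _ (w.asIdeal.mul_mem_left _ h))
  have hwd : d ∉ w.asIdeal := fun h => hw (w.asIdeal.mul_mem_left _ h)
  have hw2d : 2 * d ∉ w.asIdeal := fun h => by
    rcases w.isPrime.mem_or_mem h with h | h
    · exact hw2 h
    · exact hwd h
  obtain ⟨s1, s2⟩ := hS L F h2 d θ hθ hn w hw2d
  obtain ⟨t1, t2, -⟩ := loc_twist hF w A d hw2 hwA hwd
  by_cases hc : ∃ c : 𝓞 L, c ^ 2 - d ∈ w.asIdeal
  · obtain ⟨h3, h4⟩ := s1 hc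
    refine ⟨fac A s w, ?_, by omega, fun v hv => ?_⟩
    · have h5 : fac (d ^ 2 * A) s w = fac A s w := by
        unfold fac
        rw [t1 hc]
      rw [h3, h5, pow_two]
    · unfold fac
      rw [tn_split w v hv (h4 v hv), h4 v hv]
  · obtain ⟨h3, h4⟩ := s2 hc
    refine ⟨fac A s w * fac (d ^ 2 * A) s w, by rw [h3, pow_one], by omega, fun v hv => ?_⟩
    unfold fac
    rw [tn_inert hF w v hv (h4 v hv) A hw2 hwA, h4 v hv, t2 hc]
    have e1 : ((qn w ^ 2 : ℕ) : ℂ) ^ (-s) = ((qn w : ℂ) ^ (-s)) ^ 2 := by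
      rw [pow_two, Nat.cast_mul, Complex.natCast_mul_natCast_cpow, pow_two]
    rw [e1, ← mul_inv]
    congr 1
    push_cast
    ring

theorem step (hF : S_FF2) (hS : S_SPL2) : S_STEP := by
  intro L F _ _ _ _ _ h2 A d M θ hθ hn hM s G₁ G₂ hs hG1 hG2
  have hG := hG1.mul hG2
  -- the map to the places below
  have hmem : ∀ v : {v : HeightOneSpectrum (𝓞 F) // algebraMap (𝓞 L) (𝓞 F) M ∉ v.asIdeal},
      M ∉ (v.1.under (𝓞 L)).asIdeal := fun v h => v.2 h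
  let β : {v : HeightOneSpectrum (𝓞 F) // algebraMap (𝓞 L) (𝓞 F) M ∉ v.asIdeal} →
      {w : HeightOneSpectrum (𝓞 L) // M ∉ w.asIdeal} := fun v => ⟨v.1.under (𝓞 L), hmem v⟩
  have hbad : ∀ w : {w : HeightOneSpectrum (𝓞 L) // M ∉ w.asIdeal}, 2 * A * d ∉ w.1.asIdeal :=
    fun w h => w.2 (Ideal.mem_of_dvd _ hM h)
  have hmult : Multipliable (fun v : {v : HeightOneSpectrum (𝓞 F) //
      algebraMap (𝓞 L) (𝓞 F) M ∉ v.asIdeal} => fac (algebraMap (𝓞 L) (𝓞 F) A) s v.1) := by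
    refine multipliable_fac _ _ (fun v hv => ?_) s hs
    have h3 : 2 * A * d ∉ (v.under (𝓞 L)).asIdeal := hbad ⟨v.under (𝓞 L), hmem ⟨v, hv⟩⟩
    have h4 : algebraMap (𝓞 L) (𝓞 F) (2 * A * d) ∉ v.asIdeal := h3
    rw [map_mul, map_mul, map_ofNat] at h4
    refine (loc_twist hF v (algebraMap (𝓞 L) (𝓞 F) A) (algebraMap (𝓞 L) (𝓞 F) d) ?_ ?_ ?_).2.2
    · exact fun h => h4 (by rw [mul_assoc]; exact v.asIdeal.mul_mem_right _ h)
    · exact fun h => h4 (v.asIdeal.mul_mem_right _ (v.asIdeal.mul_mem_left _ h))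
    · exact fun h => h4 (v.asIdeal.mul_mem_left _ h)
  rw [← (Equiv.sigmaFiberEquiv β).hasProd_iff]
  refine HasProd.sigma_of_hasProd hG (fun w => ?_) ?_
  · obtain ⟨c, hc1, hc2, hc3⟩ := fibre hF hS h2 A d θ hθ hn s w.1 (hbad w)
    let e : {v // β v = w} ≃ {v : HeightOneSpectrum (𝓞 F) //
        v.asIdeal.comap (algebraMap (𝓞 L) (𝓞 F)) = w.1.asIdeal} :=
      { toFun := fun v => ⟨v.1.1, congrArg (fun x => x.1.asIdeal) v.2⟩
        invFun := fun v => ⟨⟨v.1, fun h => w.2 (by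
          rw [← v.2]
          exact h)⟩, Subtype.ext (HeightOneSpectrum.ext v.2)⟩
        left_inv := fun v => rfl
        right_inv := fun v => rfl }
    have hfin : Finite {v : HeightOneSpectrum (𝓞 F) //
        v.asIdeal.comap (algebraMap (𝓞 L) (𝓞 F)) = w.1.asIdeal} :=
      Nat.finite_of_card_ne_zero hc2
    have hfin' : Finite {v // β v = w} := Finite.of_equiv _ e.symm
    let : Fintype {v // β v = w} := Fintype.ofFinite _
    have h3 := hasProd_fintype (fun v : {v // β v = w} => fac (algebraMap (𝓞 L) (𝓞 F) A) s v.1.1)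
    have h4 : ∏ v : {v // β v = w}, fac (algebraMap (𝓞 L) (𝓞 F) A) s v.1.1 =
        fac A s w.1 * fac (d ^ 2 * A) s w.1 := by
      rw [Finset.prod_congr rfl (fun v _ => hc3 v.1.1 (e v).2), Finset.prod_const, ← hc1,
        Finset.card_univ, ← Nat.card_eq_fintype_card, Nat.card_congr e]
    rw [h4] at h3
    exact h3
  · exact (Equiv.sigmaFiberEquiv β).multipliable_iff.2 hmult

end ext

end Pool.Agent.D0H70.MQ
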